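import Pool.Agent.Run7.h900.MX.Stm

/-!
# Piece PN of the project MX (MP_c2f9c6_al): an open normal p-nilpotent subgroup
-/

set_option autoImplicit false

universe u

namespace Run7.h984.MX

open Run7.h900.MX

theorem pr_surj {G : Type u} [Group G] [TopologicalSpace G] (U : OpenNormalSubgroup G) :
    Function.Surjective (pr U) := QuotientGroup.mk'_surjective _

theorem pr_eq_one {G : Type u} [Group G] [TopologicalSpace G] (U : OpenNormalSubgroup G) (x : G) :
    pr U x = 1 ↔ x ∈ U.toSubgroup := QuotientGroup.eq_one_iff x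

/-- The case of small `U`. -/
theorem pn_small {G : Type u} [Group G] [TopologicalSpace G] [IsTopologicalGroup G]
    [CompactSpace G] (hTATE : S_TATE.{u}) {p : ℕ} (hp : p.Prime) (P : Subgroup G)
    (hidx : ∀ U : OpenNormalSubgroup G,
      ¬ p ∣ (P.map (pr U)).relIndex ((⊤ : Subgroup G).map (pr U)))
    (hpro : ProP p P) (N : OpenNormalSubgroup G)
    (hN : ∀ x : G, x ∈ N.toSubgroup → x ∈ P → x ∈ (Phi p P).topologicalClosure)
    (U : OpenNormalSubgroup G) (hU : U.toSubgroup ≤ N.toSubgroup) :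
    PNil p (N.toSubgroup.map (pr U)) := by
  have hfin : Finite (G ⧸ U.toSubgroup) :=
    Subgroup.quotient_finite_of_isOpen U.toSubgroup U.isOpen'
  have hnorm : (N.toSubgroup.map (pr U)).Normal :=
    Subgroup.Normal.map inferInstance (pr U) (pr_surj U)
  refine hTATE (G ⧸ U.toSubgroup) p hp (P.map (pr U)) (N.toSubgroup.map (pr U)) ?_ ?_ hnorm ?_
  · rintro ⟨y, hy⟩
    obtain ⟨x, hx, rfl⟩ := Subgroup.mem_map.1 hy
    obtain ⟨k, hk⟩ := hpro U x hx
    refine ⟨k, ?_⟩
    apply Subtype.ext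
    show (pr U x) ^ p ^ k = 1
    rw [← map_pow]
    exact (pr_eq_one U _).2 hk
  · have h := hidx U
    rwa [Subgroup.map_top_of_surjective _ (pr_surj U), Subgroup.relIndex_top_right] at h
  · intro y hy
    obtain ⟨n, hn, hny⟩ := Subgroup.mem_map.1 hy.1
    obtain ⟨x, hx, hxy⟩ := Subgroup.mem_map.1 hy.2
    have h1 : x⁻¹ * n ∈ U.toSubgroup := by
      rw [← pr_eq_one, map_mul, map_inv, hxy, hny, inv_mul_cancel]
    have h2 : x ∈ N.toSubgroup := by
      have h3 := N.toSubgroup.mul_mem hn (N.toSubgroup.inv_mem (hU h1))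
      have h4 : n * (x⁻¹ * n)⁻¹ = x := by group
      rwa [h4] at h3
    have h5 := hN x h2 hx
    have hopen : IsOpen (((Phi p (P.map (pr U))).comap (pr U) : Subgroup G) : Set G) := by
      refine Subgroup.isOpen_mono (H₁ := U.toSubgroup) ?_ U.isOpen'
      intro u hu
      rw [Subgroup.mem_comap, (pr_eq_one U u).2 hu]
      exact Subgroup.one_mem _
    have hclosed : IsClosed (((Phi p (P.map (pr U))).comap (pr U) : Subgroup G) : Set G) :=
      Subgroup.isClosed_of_isOpen _ hopen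
    have hle : Phi p P ≤ (Phi p (P.map (pr U))).comap (pr U) := by
      unfold Phi
      rw [Subgroup.closure_le]
      rintro z (⟨a, ha, rfl⟩ | ⟨a, ha, b, hb, rfl⟩)
      · apply Subgroup.subset_closure
        left
        exact ⟨pr U a, Subgroup.mem_map_of_mem _ ha, by rw [map_pow]⟩
      · apply Subgroup.subset_closure
        right
        exact ⟨pr U a, Subgroup.mem_map_of_mem _ ha, pr U b, Subgroup.mem_map_of_mem _ hb, by
          simp only [map_mul, map_inv]⟩
    have h6 := Subgroup.topologicalClosure_minimal _ hle hclosed h5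
    rw [Subgroup.mem_comap, hxy] at h6
    exact h6

theorem t_PN : S_SYL.{u} → S_FRAT.{u} → S_TATE.{u} → S_PN.{u} := by
  intro hSYL hFRAT hTATE G _ _ _ _ _ _ hmax p hp
  have hclosed : IsClosed ((⊤ : Subgroup G) : Set G) := by
    rw [Subgroup.coe_top]
    exact isClosed_univ
  obtain ⟨P, hP, hpro⟩ := hSYL G ⊥ ⊤ hclosed (fun _ _ _ _ => Subgroup.mem_top _)
    (fun U => by
      rw [Subgroup.map_bot]
      infer_instance)
    (fun U => by
      rw [Subgroup.map_bot, Subgroup.card_bot]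
      exact Nat.coprime_one_left _)
    p hp
  obtain ⟨hPc, -, -, hidx⟩ := hP
  obtain ⟨N, hN⟩ := hFRAT G hmax p hp P hPc
  refine ⟨N, ?_⟩
  intro U
  have hWU : (U ⊓ N : OpenNormalSubgroup G).toSubgroup ≤ U.toSubgroup :=
    fun x hx => hx.1
  have hWN : (U ⊓ N : OpenNormalSubgroup G).toSubgroup ≤ N.toSubgroup :=
    fun x hx => hx.2
  obtain ⟨K, hKn, hKN, hKp, hK⟩ := pn_small hTATE hp P hidx hpro N hN (U ⊓ N) hWN
  let f : (G ⧸ (U ⊓ N : OpenNormalSubgroup G).toSubgroup) →* (G ⧸ U.toSubgroup) :=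
    QuotientGroup.map _ _ (MonoidHom.id G) (by
      intro x hx
      exact hWU hx)
  have hf : ∀ x, f (pr (U ⊓ N) x) = pr U x := fun x => rfl
  have hfs : Function.Surjective f := by
    intro y
    obtain ⟨x, rfl⟩ := pr_surj U y
    exact ⟨pr (U ⊓ N) x, hf x⟩
  refine ⟨K.map f, hKn.map f hfs, ?_, ?_, ?_⟩
  · rintro _ ⟨k, hk, rfl⟩
    obtain ⟨n, hn, rfl⟩ := Subgroup.mem_map.1 (hKN hk)
    rw [hf]
    exact Subgroup.mem_map_of_mem _ hn
  · intro h
    exact hKp (h.trans (Subgroup.card_map_dvd K f))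
  · intro x hx
    obtain ⟨n, hn, rfl⟩ := Subgroup.mem_map.1 hx
    obtain ⟨k, hk⟩ := hK (pr (U ⊓ N) n) (Subgroup.mem_map_of_mem _ hn)
    refine ⟨k, Subgroup.mem_map.2 ⟨_, hk, ?_⟩⟩
    rw [map_pow, hf]

end Run7.h984.MX
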